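import Pool.Agent.helper70.LE.SpecN

set_option autoImplicit false

namespace Pool.Agent.LE

open Pool.Agent.helper58.DC Pool.Agent.DI Pool.Agent.GR Pool.Agent.OB Pool.Agent.DR Pool.Agent.FI Pool.Agent.FI3 Pool.Agent.FI4

theorem EX1_nz {G : Type} [Group G] (Q : Subgroup G) : nz Q ≤ nz (cz Q) := by
  intro g hg
  have hg' := Subgroup.mem_normalizer_iff.1 hg
  have key : ∀ g : G, (∀ h, h ∈ Q ↔ g * h * g⁻¹ ∈ Q) → ∀ x ∈ cz Q, g * x * g⁻¹ ∈ cz Q := by
    intro g hg x hx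
    rw [Subgroup.mem_centralizer_iff] at hx ⊢
    intro h hh
    have h1 : g⁻¹ * h * g ∈ Q := by
      rw [hg]
      have : g * (g⁻¹ * h * g) * g⁻¹ = h := by group
      rw [this]; exact hh
    have h2 := hx _ h1
    calc h * (g * x * g⁻¹) = g * ((g⁻¹ * h * g) * x) * g⁻¹ := by group
      _ = g * (x * (g⁻¹ * h * g)) * g⁻¹ := by rw [h2]
      _ = g * x * g⁻¹ * h := by group
  rw [Subgroup.mem_normalizer_iff]
  intro x
  constructor
  · exact key g hg' x
  · intro hx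
    have h3 : ∀ h, h ∈ Q ↔ g⁻¹ * h * g⁻¹⁻¹ ∈ Q := by
      intro h
      rw [hg' (g⁻¹ * h * g⁻¹⁻¹)]
      have : g * (g⁻¹ * h * g⁻¹⁻¹) * g⁻¹ = h := by group
      rw [this]
    have h4 := key g⁻¹ h3 _ hx
    have : g⁻¹ * (g * x * g⁻¹) * g⁻¹⁻¹ = x := by group
    rw [this] at h4
    exact h4

section

variable {G : Type} [Group G] [Fintype G] [DecidableEq G]

open Classical in
/-- the `L`-class of `w` -/
noncomputable def EX1_cl (L : Subgroup G) (w : G) : Finset G :=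
  (Finset.univ.filter fun l : G => l ∈ L).image fun l => l * w * l⁻¹

theorem EX1_mem (L : Subgroup G) (w k : G) : k ∈ EX1_cl L w ↔ ∃ l ∈ L, l * w * l⁻¹ = k := by
  unfold EX1_cl
  simp

theorem EX1_cl_eq (L : Subgroup G) (w k : G) (h : k ∈ EX1_cl L w) : EX1_cl L k = EX1_cl L w := by
  obtain ⟨l, hl, rfl⟩ := (EX1_mem L w k).1 h
  ext x
  rw [EX1_mem, EX1_mem]
  constructor
  · rintro ⟨m, hm, rfl⟩
    exact ⟨m * l, L.mul_mem hm hl, by group⟩
  · rintro ⟨m, hm, rfl⟩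
    exact ⟨m * l⁻¹, L.mul_mem hm (L.inv_mem hl), by group⟩

theorem EX1_self (L : Subgroup G) (w : G) : w ∈ EX1_cl L w := by
  rw [EX1_mem]
  exact ⟨1, L.one_mem, by simp⟩

open Classical in
theorem EX1_card (L : Subgroup G) (w k : G) (h : k ∈ EX1_cl L w) :
    ((Finset.univ.filter fun l : G => l ∈ L).filter fun l => l * w * l⁻¹ = k).card = Nat.card (Cz L w) := by
  obtain ⟨l0, hl0, rfl⟩ := (EX1_mem L w k).1 h
  rw [Nat.card_eq_fintype_card, Fintype.card_subtype]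
  refine Finset.card_nbij' (fun l => l0⁻¹ * l) (fun l => l0 * l) ?_ ?_ ?_ ?_
  · intro l hl
    rw [Finset.mem_coe, Finset.mem_filter, Finset.mem_filter] at hl
    obtain ⟨⟨-, hl⟩, hlw⟩ := hl
    rw [Finset.mem_coe, Finset.mem_filter]
    refine ⟨Finset.mem_univ _, ?_⟩
    refine ⟨L.mul_mem (L.inv_mem hl0) hl, ?_⟩
    show l0⁻¹ * l ∈ Subgroup.centralizer {w}
    rw [Subgroup.mem_centralizer_iff]
    intro s hs
    rw [Set.mem_singleton_iff] at hs
    rw [hs]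
    have h1 : l * w = l0 * w * l0⁻¹ * l := mul_inv_eq_iff_eq_mul.1 hlw
    calc w * (l0⁻¹ * l) = l0⁻¹ * (l0 * w * l0⁻¹ * l) := by group
      _ = l0⁻¹ * (l * w) := by rw [h1]
      _ = l0⁻¹ * l * w := by group
  · intro l hl
    rw [Finset.mem_coe, Finset.mem_filter] at hl
    obtain ⟨-, hl⟩ := hl
    have h1 : l ∈ L := hl.1
    have h2 : w * l = l * w := (Subgroup.mem_centralizer_iff.1 hl.2) w rfl
    rw [Finset.mem_coe, Finset.mem_filter, Finset.mem_filter]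
    refine ⟨⟨Finset.mem_univ _, L.mul_mem hl0 h1⟩, ?_⟩
    show l0 * l * w * (l0 * l)⁻¹ = l0 * w * l0⁻¹
    calc l0 * l * w * (l0 * l)⁻¹ = l0 * (l * w) * (l0 * l)⁻¹ := by group
      _ = l0 * (w * l) * (l0 * l)⁻¹ := by rw [h2]
      _ = l0 * w * l0⁻¹ := by group
  · intro l _
    simp
  · intro l _
    simp

open Classical in
theorem EX1_fib (L : Subgroup G) (w : G) (f : G → ℂ) :
    ∑ᶠ l ∈ (L : Set G), f (l * w * l⁻¹) = (Nat.card (Cz L w) : ℂ) * ∑ k ∈ EX1_cl L w, f k := by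
  have h1 : (L : Set G) = ((Finset.univ.filter fun l : G => l ∈ L : Finset G) : Set G) := by
    ext l; simp
  rw [h1, finsum_mem_coe_finset, Finset.sum_comp f (fun l => l * w * l⁻¹), Finset.mul_sum]
  refine Finset.sum_congr rfl fun k hk => ?_
  rw [EX1_card L w k hk, nsmul_eq_mul]

theorem EX1_os (L : Subgroup G) (w : G) : (Nat.card L : ℂ) = (Nat.card (Cz L w) : ℂ) * (EX1_cl L w).card := by
  classical
  have h := EX1_fib L w (fun _ => 1)
  rw [Finset.sum_const, nsmul_eq_mul, mul_one] at h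
  rw [← h]
  have h1 : (L : Set G) = ((Finset.univ.filter fun l : G => l ∈ L : Finset G) : Set G) := by
    ext l; simp
  rw [h1, finsum_mem_coe_finset, Finset.sum_const, nsmul_eq_mul, mul_one, Nat.card_eq_fintype_card,
    Fintype.card_subtype]

end

theorem EX1 (hOM1 : OM1_stmt) (hKKF : KKF_stmt) (hHIB : HIB_stmt) : EX1_stmt := by
  classical
  intro p M hS hp2 G _ _ D x θ χ hLoA Q hQ hRP a haT haQ
  have : Fintype G := Fintype.ofFinite G
  have haL : a ∈ nz (cz Q) := EX1_nz Q haQ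
  obtain ⟨-, -, -, -, h5, -⟩ := hKKF G (cz Q) a haL
  have hHI : HI M (cz Q) (eBl M (cz Q) θ) := (hHIB p M hS G (cz Q) θ).1
  have h1 := hOM1 p M hS hp2 G D x θ χ hLoA Q hQ hRP a haT haQ
  rw [(h5 p (eBl M (cz Q) θ) 1 (Subgroup.one_mem _)).1] at h1
  set L := cz Q with hL
  set e : G → ℂ := eBl M L θ with he
  by_contra hcon
  push Not at hcon
  have hcl : ∀ w : G, {k : G | ∃ l ∈ L, l * w * l⁻¹ = k} = ((EX1_cl L w : Finset G) : Set G) := by
    intro w
    ext k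
    rw [Finset.mem_coe, EX1_mem]
    rfl
  -- the sum over a class
  let s : G → ℂ := fun w => ∑ k ∈ EX1_cl L w, e (w * k⁻¹)
  have hs : ∀ w : G, a⁻¹ * w ∈ L → PReg p w → InM M (s w) := by
    intro w h1 h2
    have h3 := hcon w h1 h2
    rw [hcl w, finsum_mem_coe_finset] at h3
    exact h3
  have hKK : ∀ w : G, KK L e w w = (Nat.card (Cz L w) : ℂ) * s w := by
    intro w
    unfold KK
    rw [← EX1_fib L w (fun k => e (w * k⁻¹))]
    refine finsum_mem_congr rfl fun l _ => ?_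
    have : w * l * w⁻¹ * l⁻¹ = w * (l * w * l⁻¹)⁻¹ := by group
    rw [this]
  have hsc : ∀ w k : G, k ∈ EX1_cl L w → s k = s w := by
    intro w k hk
    obtain ⟨l, hl, rfl⟩ := (EX1_mem L w k).1 hk
    show ∑ k' ∈ EX1_cl L (l * w * l⁻¹), e (l * w * l⁻¹ * k'⁻¹) = ∑ k' ∈ EX1_cl L w, e (w * k'⁻¹)
    rw [EX1_cl_eq L w _ hk]
    symm
    refine Finset.sum_nbij' (fun k' => l * k' * l⁻¹) (fun k' => l⁻¹ * k' * l) ?_ ?_ ?_ ?_ ?_
    · intro k' hk'
      obtain ⟨m, hm, rfl⟩ := (EX1_mem L w k').1 hk'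
      rw [EX1_mem]
      exact ⟨l * m, L.mul_mem hl hm, by group⟩
    · intro k' hk'
      obtain ⟨m, hm, rfl⟩ := (EX1_mem L w k').1 hk'
      rw [EX1_mem]
      exact ⟨l⁻¹ * m, L.mul_mem (L.inv_mem hl) hm, by group⟩
    · intro k' _
      group
    · intro k' _
      group
    · intro k' _
      have : l * w * l⁻¹ * (l * k' * l⁻¹)⁻¹ = l * (w * k'⁻¹) * l⁻¹ := by group
      rw [this, hHI.cls l hl]
  -- the p-regular elements of the coset
  set Ω : Finset G := Finset.univ.filter fun w : G => a⁻¹ * w ∈ L ∧ PReg p w with hΩ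
  have hΩs : ∀ w ∈ Ω, EX1_cl L w ⊆ Ω := by
    intro w hw k hk
    obtain ⟨l, hl, rfl⟩ := (EX1_mem L w k).1 hk
    obtain ⟨-, h2, h3⟩ := Finset.mem_filter.1 hw
    refine Finset.mem_filter.2 ⟨Finset.mem_univ _, ?_, ?_⟩
    · have h4 : a⁻¹ * l * a ∈ L := by
        have := (Subgroup.mem_normalizer_iff.1 ((nz L).inv_mem haL) l).1 hl
        rw [inv_inv] at this
        exact this
      have h5 : a⁻¹ * (l * w * l⁻¹) = (a⁻¹ * l * a) * (a⁻¹ * w) * l⁻¹ := by group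
      rw [h5]
      exact L.mul_mem (L.mul_mem h4 h2) (L.inv_mem hl)
    · unfold PReg at h3 ⊢
      have h6 : orderOf (l * w * l⁻¹) = orderOf w := by
        have h7 := orderOf_injective (MulAut.conj l).toMonoidHom (MulAut.conj l).injective w
        exact h7
      rw [h6]
      exact h3
  have hΩe : {x : G | a⁻¹ * x ∈ L ∧ PReg p x} = ((Ω : Finset G) : Set G) := by
    ext w; simp [hΩ]
  rw [hΩe, finsum_mem_coe_finset] at h1
  have hL0 : (Nat.card L : ℂ) ≠ 0 := by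
    exact_mod_cast (Nat.card_pos (α := L)).ne'
  have h2 : ∑ w ∈ Ω, KK L e w (1 * w * 1⁻¹) = ∑ c ∈ Ω.image (EX1_cl L), ∑ w ∈ Ω.filter (fun w => EX1_cl L w = c), KK L e w w := by
    rw [Finset.sum_fiberwise_of_maps_to (fun w hw => Finset.mem_image_of_mem (EX1_cl L) hw)]
    refine Finset.sum_congr rfl fun w _ => ?_
    rw [one_mul, inv_one, mul_one]
  rw [h2, Finset.sum_div] at h1
  apply InM.not_one hS
  rw [← h1]
  refine InM.sum hS _ fun c hc => ?_
  obtain ⟨w0, hw0, rfl⟩ := Finset.mem_image.1 hc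
  have h3 : Ω.filter (fun w => EX1_cl L w = EX1_cl L w0) = EX1_cl L w0 := by
    ext w
    rw [Finset.mem_filter]
    constructor
    · rintro ⟨-, hw⟩
      rw [← hw]
      exact EX1_self L w
    · intro hw
      exact ⟨hΩs w0 hw0 hw, EX1_cl_eq L w0 w hw⟩
  rw [h3]
  have h4 : ∑ w ∈ EX1_cl L w0, KK L e w w = (Nat.card L : ℂ) * s w0 := by
    have hc0 : ((EX1_cl L w0).card : ℂ) ≠ 0 := by
      have : 0 < (EX1_cl L w0).card := Finset.card_pos.2 ⟨w0, EX1_self L w0⟩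
      exact_mod_cast this.ne'
    have h5 : ∀ w ∈ EX1_cl L w0, KK L e w w = (Nat.card L : ℂ) / (EX1_cl L w0).card * s w0 := by
      intro w hw
      rw [hKK w, hsc w0 w hw]
      congr 1
      rw [eq_div_iff hc0, EX1_os L w, EX1_cl_eq L w0 w hw]
    rw [Finset.sum_congr rfl h5, Finset.sum_const, nsmul_eq_mul]
    field_simp
  rw [h4, mul_div_cancel_left₀ _ hL0]
  obtain ⟨-, h6, h7⟩ := Finset.mem_filter.1 hw0
  exact hs w0 h6 h7

end Pool.Agent.LE
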