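import Pool.Agent.helper83.LE.SpecB

set_option autoImplicit false

namespace Pool.Agent.LE

open Pool.Agent.helper58.DC Pool.Agent.DI Pool.Agent.GR Pool.Agent.OB Pool.Agent.DR Pool.Agent.FI Pool.Agent.FI3 Pool.Agent.FI4 Pool.Agent.FI4C

/-- the index of the centralizer of `t` in the abelian `p`-group `D` -/
theorem COV_index {G : Type} [Group G] [Finite G] (p : ℕ) (hp : p.Prime) (D : Subgroup G) (hD : IsPGroup p D)
    (hab : ∀ a ∈ D, ∀ b ∈ D, a * b = b * a) (t : G) (ht : ∀ w ∈ D, t * w * t⁻¹ ∈ D) (c h : ℕ) (hc : 1 ≤ c) (w : G) (hw : w ∈ D)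
    (hwt : (w⁻¹ * t * w * t⁻¹) ^ p ^ (c + h - 1) ≠ 1) :
    p ^ c ≤ ((Subgroup.centralizer {t}).subgroupOf D).index := by
  have hmem : ∀ w ∈ D, w⁻¹ * (t * w * t⁻¹) ∈ D := fun w hw => D.mul_mem (D.inv_mem hw) (ht w hw)
  let φ : D →* D := MonoidHom.mk' (fun w => ⟨(w : G)⁻¹ * (t * w * t⁻¹), hmem w w.2⟩) (by
    intro a b
    apply Subtype.ext
    show ((a * b : D) : G)⁻¹ * (t * ((a * b : D) : G) * t⁻¹) = ((a : G)⁻¹ * (t * a * t⁻¹)) * ((b : G)⁻¹ * (t * b * t⁻¹))
    have e1 : ((a * b : D) : G) = (a : G) * (b : G) := rfl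
    have e2 : (b : G)⁻¹ * ((a : G)⁻¹ * (t * a * t⁻¹)) = ((a : G)⁻¹ * (t * a * t⁻¹)) * (b : G)⁻¹ :=
      hab _ (D.inv_mem b.2) _ (hmem a a.2)
    calc ((a * b : D) : G)⁻¹ * (t * ((a * b : D) : G) * t⁻¹)
        = ((b : G)⁻¹ * ((a : G)⁻¹ * (t * a * t⁻¹))) * (t * b * t⁻¹) := by rw [e1]; group
      _ = ((a : G)⁻¹ * (t * a * t⁻¹)) * ((b : G)⁻¹ * (t * b * t⁻¹)) := by rw [e2]; group)
  have hker : φ.ker = (Subgroup.centralizer {t}).subgroupOf D := by
    ext u
    rw [MonoidHom.mem_ker, Subgroup.mem_subgroupOf, Subgroup.mem_centralizer_iff]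
    constructor
    · intro hu s hs
      rw [Set.mem_singleton_iff] at hs
      rw [hs]
      have h1 : (u : G)⁻¹ * (t * u * t⁻¹) = 1 := congrArg Subtype.val hu
      have h2 : t * u * t⁻¹ = u := (inv_mul_eq_one.1 h1).symm
      exact mul_inv_eq_iff_eq_mul.1 h2
    · intro hu
      apply Subtype.ext
      show (u : G)⁻¹ * (t * u * t⁻¹) = 1
      rw [hu t rfl]
      group
  rw [← hker, Subgroup.index_ker]
  set v : D := φ ⟨w, hw⟩ with hv
  have hvr : v ∈ φ.range := ⟨⟨w, hw⟩, rfl⟩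
  have hvne : v ^ p ^ (c + h - 1) ≠ 1 := by
    intro h0
    apply hwt
    have h1 : ((v ^ p ^ (c + h - 1) : D) : G) = 1 := by rw [h0]; rfl
    have h2 : (v : G) = w⁻¹ * t * w * t⁻¹ := by
      show w⁻¹ * (t * w * t⁻¹) = _
      group
    rw [Subgroup.coe_pow, h2] at h1
    exact h1
  have : Fact p.Prime := ⟨hp⟩
  obtain ⟨k, hk⟩ := (IsPGroup.iff_orderOf.1 hD) v
  have hkc : c ≤ k := by
    by_contra hlt
    push Not at hlt
    apply hvne
    rw [← orderOf_dvd_iff_pow_eq_one, hk]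
    exact pow_dvd_pow p (by omega)
  have h3 : orderOf v ∣ Nat.card φ.range := Subgroup.orderOf_dvd_natCard _ hvr
  have h4 : 0 < Nat.card φ.range := Nat.card_pos
  calc p ^ c ≤ p ^ k := Nat.pow_le_pow_right hp.pos hkc
    _ = orderOf v := hk.symm
    _ ≤ Nat.card φ.range := Nat.le_of_dvd h4 h3

theorem COV : COV_stmt := by
  classical
  intro p M hp G _ _ D θ n c h hD hab hTn hCT hHL
  set T := TT M D θ with hT
  let Q := T ⧸ (cz D).subgroupOf T
  have : Fintype Q := Fintype.ofFinite Q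
  have hQ : Fintype.card Q = iI M D θ := by
    have h1 : iI M D θ = (cz D).relIndex T := rfl
    rw [h1, Subgroup.relIndex, Subgroup.index, Nat.card_eq_fintype_card]
  have hQ1 : Fintype.card {q : Q // q ≠ ((1 : T) : Q)} = iI M D θ - 1 := by
    rw [← hQ, Fintype.card_subtype_compl, Fintype.card_subtype_eq]
  let e : Fin (iI M D θ - 1) ≃ {q : Q // q ≠ ((1 : T) : Q)} := (Fintype.equivFinOfCardEq hQ1).symm
  let τ : Q → G := fun q => ((Quotient.out q : T) : G)
  have hτT : ∀ q, τ q ∈ T := fun q => (Quotient.out q : T).2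
  have hτ : ∀ q : Q, q ≠ ((1 : T) : Q) → τ q ∉ cz D := by
    intro q hq h3
    apply hq
    have h6 : ((Quotient.out q : T) : Q) = q := Quotient.out_eq q
    rw [← h6, QuotientGroup.eq]
    show ((Quotient.out q : T)⁻¹ * 1) ∈ (cz D).subgroupOf T
    rw [mul_one]
    exact Subgroup.inv_mem _ (Subgroup.mem_subgroupOf.mpr h3)
  refine ⟨fun i => (Subgroup.centralizer {τ (e i).1}).subgroupOf D, ?_, ?_⟩
  · intro u
    constructor
    · intro hnu
      have h1 : ∃ t ∈ T, t * u = u * t ∧ t ∉ cz D := by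
        by_contra hcon
        push Not at hcon
        exact hnu ⟨u.2, hcon⟩
      obtain ⟨t, ht, htu, htc⟩ := h1
      have h2 : (((⟨t, ht⟩ : T) : Q)) ≠ ((1 : T) : Q) := by
        intro h0
        rw [QuotientGroup.eq] at h0
        have h3 : (⟨t, ht⟩ : T)⁻¹ ∈ (cz D).subgroupOf T := by simpa using h0
        have h4 := Subgroup.mem_subgroupOf.mp (Subgroup.inv_mem _ h3)
        exact htc (by simpa using h4)
      refine ⟨e.symm ⟨_, h2⟩, ?_⟩
      show u ∈ (Subgroup.centralizer {τ (e (e.symm ⟨_, h2⟩)).1}).subgroupOf D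
      rw [Equiv.apply_symm_apply, Subgroup.mem_subgroupOf, Subgroup.mem_centralizer_iff]
      intro s hs
      rw [Set.mem_singleton_iff] at hs
      rw [hs]
      show ((Quotient.out (((⟨t, ht⟩ : T) : Q)) : T) : G) * u = u * ((Quotient.out (((⟨t, ht⟩ : T) : Q)) : T) : G)
      set o : T := Quotient.out (((⟨t, ht⟩ : T) : Q)) with ho
      have h5 : ((o : T) : Q) = ((⟨t, ht⟩ : T) : Q) := Quotient.out_eq _
      rw [QuotientGroup.eq] at h5
      have h6 : (o : G)⁻¹ * t ∈ cz D := h5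
      have h7 : (u : G) * ((o : G)⁻¹ * t) = ((o : G)⁻¹ * t) * u := by
        have : (o : G)⁻¹ * t ∈ Subgroup.centralizer (D : Set G) := h6
        exact (Subgroup.mem_centralizer_iff.mp this) u u.2
      have h8 : (o : G) * u * ((o : G)⁻¹ * t) = u * (o : G) * ((o : G)⁻¹ * t) := by
        rw [mul_assoc, h7]
        simp only [mul_assoc, mul_inv_cancel_left]
        exact htu
      exact mul_right_cancel h8
    · rintro ⟨i, hi⟩ hu
      have h1 : (u : G) ∈ Subgroup.centralizer {τ (e i).1} := Subgroup.mem_subgroupOf.1 hi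
      have h2 : τ (e i).1 * u = u * τ (e i).1 := (Subgroup.mem_centralizer_iff.1 h1) _ rfl
      exact hτ _ (e i).2 (hu.2 _ (hτT _) h2)
  · intro i
    obtain ⟨w, hw, hwt⟩ := hHL.wit (τ (e i).1) (hτT _) (hτ _ (e i).2)
    refine COV_index p hp D hD hab _ ?_ c h hHL.pos w hw hwt
    intro x hx
    exact ((Subgroup.mem_normalizer_iff.1 (hTn (hτT (e i).1))) x).1 hx

end Pool.Agent.LE
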