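import Pool.Agent.helper83.LE.SpecB

set_option autoImplicit false

namespace Pool.Agent.LE

theorem OM2_pow (p i : ℕ) : ∃ c : ℕ, (1 + p) ^ i = 1 + i * p + p ^ 2 * c := by
  induction i with
  | zero => exact ⟨0, by simp⟩
  | succ i ih =>
    obtain ⟨c, hc⟩ := ih
    refine ⟨i + c + c * p, ?_⟩
    rw [pow_succ, hc]
    ring

theorem OM2 : OM2_stmt := by
  intro p n m i k hp hG hi hk hm
  by_contra hk2
  push Not at hk2
  have h2 : p ^ 2 ∣ n := (pow_dvd_pow p hk2).trans hk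
  have h3 : m ^ i ≡ 1 [MOD p ^ 2] := hm.of_dvd (pow_dvd_pow p hk2)
  have h4 : (1 + p) ^ i ≡ 1 [MOD p ^ 2] := ((hG.two h2).pow i).symm.trans h3
  obtain ⟨c, hc⟩ := OM2_pow p i
  rw [hc] at h4
  have h5 : p ^ 2 ∣ i * p + p ^ 2 * c := by
    have h6 : 1 + (i * p + p ^ 2 * c) ≡ 1 + 0 [MOD p ^ 2] := by
      rw [← add_assoc, add_zero]; exact h4
    have h7 := Nat.ModEq.add_left_cancel' 1 h6
    exact (Nat.modEq_zero_iff_dvd).1 h7
  have h8 : p ^ 2 ∣ i * p := (Nat.dvd_add_left (Dvd.intro c rfl)).1 h5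
  rw [pow_two] at h8
  exact hi (Nat.dvd_of_mul_dvd_mul_right hp.pos h8)

end Pool.Agent.LE
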